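import Pool.Agent.Helper73.OE.Geo
import Pool.Agent.Helper75.OE.GoalsA

/-!
Packet OE-FREC: recursion for the flip.
-/

namespace Pool.Agent.Helper69.OE

open Pool.Agent.Helper73.OE Pool.Agent.Helper73.OE.Sys Pool.Agent.Helper75.OE

theorem frec (h1 : A_PLOC) : A_FREC := by
  classical
  intro H S L _ X O v p y f hy hMA
  have hP := h1 H S L X O O v p y f f hy hMA (fun _ _ => rfl) (fun _ _ _ _ => Iff.rfl)
  refine ⟨?_, ?_, ?_, ?_⟩
  · unfold Sys.flip
    rw [X.dist_self]
    simp [Sys.flipP]
  · intro z hz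
    unfold Sys.flip
    rw [(hP z _).1 hz]
    rfl
  · intro hO z hz
    have hsp : (f v).symm y ≠ p := by
      intro h
      apply hy
      rw [← h, Equiv.apply_symm_apply]
    have hsub := X.branch_subset (v := v) hsp
    have hv' : X.nb v ((f v).symm y) ∈ X.Sd v p := hsub (X.self_mem_Sd _ _)
    have hm : f (X.nb v ((f v).symm y)) (X.bar ((f v).symm y)) = X.tau y := by
      have := hMA v ((f v).symm y) (X.self_mem_Sd v p) hv' hO
      unfold Sys.Mt at this
      rw [this, Equiv.apply_symm_apply]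
    have hy' : X.tau (f v p) ≠ f (X.nb v ((f v).symm y)) (X.bar ((f v).symm y)) := by
      rw [hm]
      intro h
      apply hy
      have := congrArg X.tau h
      rw [X.tau_tau, X.tau_tau] at this
      exact this.symm
    have hMA' : X.MA O (X.Sd (X.nb v ((f v).symm y)) (X.bar ((f v).symm y))) f :=
      fun w r hw hr => hMA w r (hsub hw) (hsub hr)
    have hP' := h1 H S L X O O _ _ _ f f hy' hMA' (fun _ _ => rfl) (fun _ _ _ _ => Iff.rfl)
    obtain ⟨n, hn⟩ : ∃ n, X.dist v z = n + 1 := by
      refine ⟨X.dist v z - 1, ?_⟩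
      have : X.dist v z ≠ 0 := fun h => hz ((X.dist_eq_zero v z).1 h).symm
      omega
    unfold Sys.flip
    rw [hn]
    simp only [Sys.flipP, if_neg hz, if_pos hO]
    by_cases hzb : z ∈ X.Sd (X.nb v ((f v).symm y)) (X.bar ((f v).symm y))
    · have := X.mem_Sd_bar.1 hzb
      have h2 : n = X.dist (X.nb v ((f v).symm y)) z := by
        rw [X.dist_comm v z] at hn
        rw [X.dist_comm _ z]
        omega
      rw [h2]
    · rw [(hP' z _).1 hzb, (hP' z _).1 hzb]
  · intro hO z hz
    obtain ⟨n, hn⟩ : ∃ n, X.dist v z = n + 1 := by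
      refine ⟨X.dist v z - 1, ?_⟩
      have : X.dist v z ≠ 0 := fun h => hz ((X.dist_eq_zero v z).1 h).symm
      omega
    unfold Sys.flip
    rw [hn]
    simp only [Sys.flipP, if_neg hz, if_neg hO]
    rfl

end Pool.Agent.Helper69.OE
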